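import Mathlib
import Pool.Agent.VM5.Stmts
import Pool.Agent.Helper98_VM5.Ta

/-!
# AV2: two Weyl steps, then progressions
-/

set_option autoImplicit false

namespace Pool.Agent.VM5.H46

open Pool.Agent.Helper69_Weyl (ee)

/-- the `m` with `n + d m` in `[1, X]` form an interval -/
theorem itv (n d X : ℤ) (K : ℕ) (hd : 0 ≤ d) : ∃ lo hi : ℕ, 1 ≤ lo ∧ hi ≤ K ∧
    (Finset.Icc 1 K).filter (fun m : ℕ => 1 ≤ n + d * m ∧ n + d * m ≤ X) =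
      Finset.Icc lo hi := by
  classical
  set T := (Finset.Icc 1 K).filter (fun m : ℕ => 1 ≤ n + d * m ∧ n + d * m ≤ X) with hT
  rcases T.eq_empty_or_nonempty with h | h
  · exact ⟨1, 0, le_refl _, Nat.zero_le _, by rw [h]; rfl⟩
  · have hmem : ∀ m, m ∈ T ↔ (1 ≤ m ∧ m ≤ K) ∧ 1 ≤ n + d * m ∧ n + d * m ≤ X := by
      intro m
      rw [hT, Finset.mem_filter, Finset.mem_Icc]
    have h1 := (hmem _).mp (T.min'_mem h)
    have h2 := (hmem _).mp (T.max'_mem h)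
    refine ⟨T.min' h, T.max' h, h1.1.1, h2.1.2, ?_⟩
    ext m
    rw [Finset.mem_Icc]
    constructor
    · intro hm
      exact ⟨T.min'_le _ hm, T.le_max' _ hm⟩
    · rintro ⟨ha, hb⟩
      rw [hmem]
      have ha' : ((T.min' h : ℕ) : ℤ) ≤ (m : ℤ) := by exact_mod_cast ha
      have hb' : (m : ℤ) ≤ ((T.max' h : ℕ) : ℤ) := by exact_mod_cast hb
      have e1 := mul_le_mul_of_nonneg_left ha' hd
      have e2 := mul_le_mul_of_nonneg_left hb' hd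
      refine ⟨⟨h1.1.1.trans ha, hb.trans h2.1.2⟩, ?_, ?_⟩
      · linarith [h1.2.1]
      · linarith [h2.2.2]

theorem av2 (wd2 : Wd2Stmt) (avg : VM.AvgStmt) : Av2Stmt := by
  intro t ξ N K S hK hS
  classical
  choose lo hi hlo hhi heq using fun p : ℕ × ℕ × ℕ × ℤ =>
    itv p.2.2.2 (p.2.2.1 : ℤ) ((N : ℤ) - (p.1 : ℤ) - (p.2.1 : ℤ)) K (Int.natCast_nonneg _)
  refine ⟨lo, hi, hlo, hhi, ?_⟩
  set f : ℤ → ℝ := fun n => t * (n : ℝ) ^ 5 + ξ * (n : ℝ) with hf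
  have h0 := wd2 f N
  have hWS : WS t ξ N = ∑ n ∈ Finset.Icc (1 : ℤ) (N : ℤ), ee (f n) := rfl
  -- the key inequality for one triple
  have key : ∀ h₁ ∈ Finset.Icc 1 N, ∀ h₂ ∈ Finset.Icc 1 N, ∀ d ∈ S,
      (K : ℝ) * ‖∑ n ∈ Finset.Icc (1 : ℤ) ((N : ℤ) - (h₁ : ℤ) - (h₂ : ℤ)),
          ee (f (n + (h₁ : ℤ) + (h₂ : ℤ)) - f (n + (h₁ : ℤ)) - f (n + (h₂ : ℤ)) + f n)‖ ≤
        ∑ r ∈ Finset.Icc (-(N : ℤ)) (N : ℤ),
          ‖∑ m ∈ Finset.Icc (lo (h₁, h₂, d, r)) (hi (h₁, h₂, d, r)),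
            ee (∑ j : Fin 3, t * (co3 j (h₁, h₂, d, r) : ℝ) * (m : ℝ) ^ ((j : ℕ) + 1))‖ := by
    intro h₁ hh₁ h₂ hh₂ d hd
    set g : ℤ → ℂ := fun n =>
      ee (f (n + (h₁ : ℤ) + (h₂ : ℤ)) - f (n + (h₁ : ℤ)) - f (n + (h₂ : ℤ)) + f n) with hg
    set X : ℕ := ((N : ℤ) - (h₁ : ℤ) - (h₂ : ℤ)).toNat with hX
    have hXN : X ≤ N := by omega
    have hI : Finset.Icc (1 : ℤ) ((N : ℤ) - (h₁ : ℤ) - (h₂ : ℤ)) = Finset.Icc (1 : ℤ) (X : ℤ) := by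
      ext x
      rw [Finset.mem_Icc, Finset.mem_Icc]
      omega
    have h1 := avg N K d X g hK (hS d hd).1 (hS d hd).2 hXN
    rw [hI]
    refine h1.trans (le_of_eq ?_)
    refine Finset.sum_congr rfl fun r _ => ?_
    have h2 : (Finset.Icc 1 K).filter (fun m : ℕ => 1 ≤ r + (d : ℤ) * m ∧
        r + (d : ℤ) * m ≤ (X : ℤ)) = Finset.Icc (lo (h₁, h₂, d, r)) (hi (h₁, h₂, d, r)) := by
      rw [← heq]
      refine Finset.filter_congr fun m hm => ?_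
      simp only
      omega
    rw [h2]
    obtain ⟨c₀, hc₀⟩ := H98.ta2 t ξ (h₁, h₂, d, r)
    have h3 : ∀ m : ℕ, g (r + (d : ℤ) * m) = ee c₀ *
        ee (∑ j : Fin 3, t * (co3 j (h₁, h₂, d, r) : ℝ) * (m : ℝ) ^ ((j : ℕ) + 1)) := by
      intro m
      rw [← Pool.Agent.Helper69_Weyl.ee_add, ← hc₀ (m : ℝ), hg, hf]
      simp only
      push_cast
      rfl
    simp_rw [h3]
    rw [← Finset.mul_sum, norm_mul, Pool.Agent.Helper69_Weyl.norm_ee, one_mul]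
  -- the sum over the points
  have hP : ∑ p ∈ P3 N S, ‖∑ m ∈ Finset.Icc (lo p) (hi p),
      ee (∑ j : Fin 3, t * (co3 j p : ℝ) * (m : ℝ) ^ ((j : ℕ) + 1))‖ =
      ∑ h₁ ∈ Finset.Icc 1 N, ∑ h₂ ∈ Finset.Icc 1 N, ∑ d ∈ S,
        ∑ r ∈ Finset.Icc (-(N : ℤ)) (N : ℤ),
          ‖∑ m ∈ Finset.Icc (lo (h₁, h₂, d, r)) (hi (h₁, h₂, d, r)),
            ee (∑ j : Fin 3, t * (co3 j (h₁, h₂, d, r) : ℝ) * (m : ℝ) ^ ((j : ℕ) + 1))‖ := by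
    rw [P3, Finset.sum_product]
    refine Finset.sum_congr rfl fun h₁ _ => ?_
    rw [Finset.sum_product]
    refine Finset.sum_congr rfl fun h₂ _ => ?_
    rw [Finset.sum_product]
  have hsum : (S.card : ℝ) * (K : ℝ) * ∑ h₁ ∈ Finset.Icc 1 N, ∑ h₂ ∈ Finset.Icc 1 N,
        ‖∑ n ∈ Finset.Icc (1 : ℤ) ((N : ℤ) - (h₁ : ℤ) - (h₂ : ℤ)),
          ee (f (n + (h₁ : ℤ) + (h₂ : ℤ)) - f (n + (h₁ : ℤ)) - f (n + (h₂ : ℤ)) + f n)‖ ≤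
      ∑ p ∈ P3 N S, ‖∑ m ∈ Finset.Icc (lo p) (hi p),
        ee (∑ j : Fin 3, t * (co3 j p : ℝ) * (m : ℝ) ^ ((j : ℕ) + 1))‖ := by
    rw [hP, Finset.mul_sum]
    refine Finset.sum_le_sum fun h₁ hh₁ => ?_
    rw [Finset.mul_sum]
    refine Finset.sum_le_sum fun h₂ hh₂ => ?_
    have e1 := Finset.sum_le_sum (key h₁ hh₁ h₂ hh₂)
    rw [Finset.sum_const, nsmul_eq_mul, ← mul_assoc] at e1
    exact e1
  have hc : (0 : ℝ) ≤ (S.card : ℝ) * (K : ℝ) := by positivity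
  have h4 := mul_le_mul_of_nonneg_left h0 hc
  rw [← hWS] at h4
  have h5 := mul_le_mul_of_nonneg_left hsum (by positivity : (0 : ℝ) ≤ 16 * (N : ℝ))
  calc (S.card : ℝ) * (K : ℝ) * ‖WS t ξ N‖ ^ 4 ≤ _ := h4
    _ ≤ _ := by nlinarith [h5]

end Pool.Agent.VM5.H46
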