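import Pool.Agent.VM5.StmtsB
import Pool.Agent.Helper78_VM5.EA2

/-! VM5, second edition, module EAw: the pairs of a class with `d ≠ d'` (the proof follows
`Pool.Agent.Helper78_VM5.EA2`). -/

set_option autoImplicit false
set_option linter.unusedSectionVars false

namespace Pool.Agent.VM5.H46

open Pool.Agent.VM5 Pool.Agent.VM5.H78

/-- the numerical inequality in the second case -/
theorem num2w {N D K W l C₁ : ℝ} (hN : 1 ≤ N) (hD : 1 ≤ D) (hK : 0 < K) (hW : 0 < W)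
    (hl : 1 ≤ l) (hC : 0 < C₁) (h1 : C₁ * W < K ^ 3) (h4 : 4 * D * K ≤ N) (h5 : N ≤ D ^ 2) :
    (l ^ 2 * (W * D)) * ((1 + W / K ^ 3) * (1 + l * D * N / W) * (N / D)) ≤
      (1 + 1 / C₁) ^ 2 * (N ^ 2 * D * l ^ 3) := by
  have hD0 : 0 < D := by linarith
  have hN0 : 0 < N := by linarith
  have hK3 : 0 < K ^ 3 := by positivity
  have hl0 : 0 < l := by linarith
  have e2 : 1 + W / K ^ 3 ≤ 1 + 1 / C₁ := by
    have : W / K ^ 3 ≤ 1 / C₁ := by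
      rw [div_le_div_iff₀ hK3 hC]
      linarith
    linarith
  have hK3' : K ^ 3 ≤ N * D := by
    have a1 : (4 * D * K) ^ 3 ≤ N ^ 3 := pow_le_pow_left₀ (by positivity) h4 3
    have a2 : N ^ 3 ≤ N * (D ^ 2) ^ 2 := by
      have : N ^ 2 ≤ (D ^ 2) ^ 2 := pow_le_pow_left₀ hN0.le h5 2
      nlinarith
    have a3 : 64 * D ^ 3 * K ^ 3 ≤ (N * D) * D ^ 3 := by nlinarith
    have a4 : 64 * K ^ 3 ≤ N * D := by
      have : D ^ 3 * (64 * K ^ 3) ≤ D ^ 3 * (N * D) := by nlinarith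
      exact le_of_mul_le_mul_left this (by positivity)
    linarith
  have hWN : W ≤ N * D / C₁ := by
    rw [le_div_iff₀ hC]
    linarith
  have e3 : (W * D) * ((1 + l * D * N / W) * (N / D)) = W * N + l * D * N ^ 2 := by
    field_simp
  have e4 : W * N + l * D * N ^ 2 ≤ (1 + 1 / C₁) * (N ^ 2 * D * l) := by
    have h6 : W * N ≤ (N * D / C₁) * N := mul_le_mul_of_nonneg_right hWN hN0.le
    have h7 : (N * D / C₁) * N = 1 / C₁ * (N ^ 2 * D) := by field_simp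
    have h8 : 1 / C₁ * (N ^ 2 * D) ≤ 1 / C₁ * (N ^ 2 * D * l) := by
      apply mul_le_mul_of_nonneg_left _ (by positivity)
      exact le_mul_of_one_le_right (by positivity) hl
    nlinarith
  calc (l ^ 2 * (W * D)) * ((1 + W / K ^ 3) * (1 + l * D * N / W) * (N / D)) =
        (l ^ 2 * (1 + W / K ^ 3)) * ((W * D) * ((1 + l * D * N / W) * (N / D))) := by ring
    _ = (l ^ 2 * (1 + W / K ^ 3)) * (W * N + l * D * N ^ 2) := by rw [e3]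
    _ ≤ (l ^ 2 * (1 + 1 / C₁)) * ((1 + 1 / C₁) * (N ^ 2 * D * l)) := by
        apply mul_le_mul _ e4 (by positivity) (by positivity)
        exact mul_le_mul_of_nonneg_left e2 (by positivity)
    _ = _ := by ring

/-- EAw -/
theorem eaw (sig : SgwStmt) (zzc : ZzwStmt) (qcn : QcwStmt) (hcn : HcwStmt) : EawStmt := by
  classical
  obtain ⟨Cs, hCs, sig⟩ := sig
  obtain ⟨Cz, hCz, zzc⟩ := zzc
  obtain ⟨C₁, hC₁, hcn⟩ := hcn
  intro ε hε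
  obtain ⟨Cq, hCq, qcn⟩ := qcn ε hε
  obtain ⟨Ch, hCh, hcn⟩ := hcn ε hε
  refine ⟨Cq * Cz * ((1 + C₁) * (2 + 2 * C₁)) + Ch * Cz * (1 + 1 / C₁) ^ 2,
    by positivity, ?_⟩
  intro N D K u H g t b S hPar hg hgH hHN
  have hPar' := hPar
  obtain ⟨p1, p2, p3, p4, p5, p6, p7, p8, p9, p10, p11, p12, p13⟩ := hPar'
  have hN1 : 1 ≤ N := by omega
  have hD1 : 1 ≤ D := by omega
  have hu1 : 1 ≤ u := by omega
  have hH1 : 1 ≤ H := by omega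
  have hK1 : 1 ≤ K := by
    by_contra h0
    have : K = 0 := by omega
    rw [this] at p2
    omega
  obtain ⟨W, hW⟩ : ∃ W, W = WW N u t b := ⟨_, rfl⟩
  have huW : (u : ℝ) ≤ W := by rw [hW]; exact le_max_left _ _
  have hW0 : 0 < W := lt_of_lt_of_le (by exact_mod_cast hu1) huW
  have hK0 : (0 : ℝ) < K := by exact_mod_cast hK1
  have hN0 : (0 : ℝ) < N := by exact_mod_cast hN1
  have hD0 : (0 : ℝ) < D := by exact_mod_cast hD1
  have hH0 : (0 : ℝ) < H := by exact_mod_cast hH1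
  have hu0 : (0 : ℝ) < u := by exact_mod_cast hu1
  obtain ⟨l, hl⟩ : ∃ l : ℝ, l = (g : ℝ) * (N : ℝ) / (H : ℝ) := ⟨_, rfl⟩
  have hg1 : (1 : ℝ) ≤ g := by exact_mod_cast hg
  have hHN' : (H : ℝ) ≤ N := by exact_mod_cast hHN
  have hl1 : 1 ≤ l := by
    rw [hl, le_div_iff₀ hH0]
    nlinarith
  have hgl : (g : ℝ) ≤ l := by
    rw [hl, le_div_iff₀ hH0]
    apply mul_le_mul_of_nonneg_left hHN' (by linarith)
  -- the set of pairs
  obtain ⟨T, hT⟩ : ∃ T : Finset ((ℕ × ℕ × ℤ) × (ℕ × ℕ × ℤ)),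
    T = (Cls N H g u S ×ˢ Cls N H g u S).filter (fun v => Close2 K t v ∧ v.1.2.1 ≠ v.2.2.1) :=
    ⟨_, rfl⟩
  have hcard : Nat.card {v : (ℕ × ℕ × ℤ) × (ℕ × ℕ × ℤ) // v.1 ∈ Cls N H g u S ∧
        v.2 ∈ Cls N H g u S ∧ Close2 K t v ∧ v.1.2.1 ≠ v.2.2.1} = T.card := by
    have e : {v : (ℕ × ℕ × ℤ) × (ℕ × ℕ × ℤ) // v.1 ∈ Cls N H g u S ∧
        v.2 ∈ Cls N H g u S ∧ Close2 K t v ∧ v.1.2.1 ≠ v.2.2.1} ≃ {x // x ∈ T} :=
      Equiv.subtypeEquivRight fun x => by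
        rw [hT, Finset.mem_filter, Finset.mem_product]
        tauto
    rw [Nat.card_congr e, Nat.card_eq_fintype_card, Fintype.card_coe]
  rw [hcard, ← hl]
  have hmem : ∀ v ∈ T, (H < 2 * v.1.1 ∧ v.1.1 ≤ H ∧ Nat.gcd v.1.1 u = g) ∧
      (H < 2 * v.2.1 ∧ v.2.1 ≤ H ∧ Nat.gcd v.2.1 u = g) ∧
      (v.1.2.1 ∈ S ∧ v.2.2.1 ∈ S ∧ v.1.2.1 ≠ v.2.2.1) ∧
      (|v.1.2.2| ≤ (N : ℤ) ∧ |v.2.2.2| ≤ (N : ℤ)) ∧ (v.1 ∈ P2 N S ∧ v.2 ∈ P2 N S) ∧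
      Close2 K t v := by
    intro v hv
    rw [hT, Finset.mem_filter, Finset.mem_product] at hv
    obtain ⟨⟨a1, a2⟩, a3, a4⟩ := hv
    unfold Cls at a1 a2
    rw [Finset.mem_filter] at a1 a2
    have b1 := a1.1
    have b2 := a2.1
    unfold P2 at b1 b2
    rw [Finset.mem_product, Finset.mem_product, Finset.mem_Icc, Finset.mem_Icc] at b1 b2
    refine ⟨a1.2, a2.2, ⟨b1.2.1, b2.2.1, a4⟩, ⟨abs_le.2 b1.2.2, abs_le.2 b2.2.2⟩,
      ⟨a1.1, a2.1⟩, a3⟩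
  obtain ⟨f, hf⟩ : ∃ f : (ℕ × ℕ × ℤ) × (ℕ × ℕ × ℤ) → (ℕ × ℕ) × (ℕ × ℕ),
    f = fun v => ((v.1.1, v.2.1), (v.1.2.1, v.2.2.1)) := ⟨_, rfl⟩
  obtain ⟨B, hB⟩ : ∃ B : ℝ, B = Cz * (1 + W / (K : ℝ) ^ 3) * (1 + l * D * N / W) * (N / D) :=
    ⟨_, rfl⟩
  -- the fibres
  have hfib : ∀ a ∈ T.image f, ((T.filter (fun x => f x = a)).card : ℝ) ≤ B := by
    intro a ha
    obtain ⟨v, hv, rfl⟩ := Finset.mem_image.1 ha
    obtain ⟨c1, c2, c3, c4, c5, c6⟩ := hmem v hv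
    have h1 := zzc N D K u H g t b S hPar hg hgH hHN v.1.1 v.2.1 v.1.2.1 v.2.2.1 (by omega) c1.2.1
      c2.1 c2.2.1 c2.2.2 c3.1 c3.2.1 c3.2.2
    rw [← hW, ← hl] at h1
    rw [hB]
    refine le_trans ?_ h1
    have h2 := card_le_nat (T.filter (fun x => f x = f v))
      (fun w : ℤ × ℤ => |w.1| ≤ (N : ℤ) ∧ |w.2| ≤ (N : ℤ) ∧
        Close2 K t ((v.1.1, v.1.2.1, w.1), (v.2.1, v.2.2.1, w.2)))
      (Finset.Icc (-(N : ℤ)) (N : ℤ) ×ˢ Finset.Icc (-(N : ℤ)) (N : ℤ)) (by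
        intro w hw
        rw [Finset.mem_product, Finset.mem_Icc, Finset.mem_Icc]
        exact ⟨abs_le.1 hw.1, abs_le.1 hw.2.1⟩) (fun x => (x.1.2.2, x.2.2.2)) (by
        intro x hx
        rw [Finset.mem_filter] at hx
        obtain ⟨d1, d2, d3, d4, d5, d6⟩ := hmem x hx.1
        have hx2 := hx.2
        rw [hf] at hx2
        simp only [Prod.mk.injEq] at hx2
        obtain ⟨⟨e1, e2⟩, e3, e4⟩ := hx2
        refine ⟨d4.1, d4.2, ?_⟩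
        rw [← e1, ← e2, ← e3, ← e4]
        exact d6) (by
        intro x hx y hy hxy
        rw [Finset.mem_filter] at hx hy
        have hx2 := hx.2
        have hy2 := hy.2
        rw [hf] at hx2 hy2
        simp only [Prod.mk.injEq] at hx2 hy2 hxy
        obtain ⟨⟨e1, e2⟩, e3, e4⟩ := hx2
        obtain ⟨⟨g1, g2⟩, g3, g4⟩ := hy2
        refine Prod.ext (Prod.ext ?_ (Prod.ext ?_ hxy.1)) (Prod.ext ?_ (Prod.ext ?_ hxy.2))
        · rw [e1, g1]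
        · rw [e3, g3]
        · rw [e2, g2]
        · rw [e4, g4])
    exact_mod_cast h2
  have hmain := card_fib T f B hfib
  have hB0 : 0 ≤ B := by
    rw [hB]
    positivity
  -- the image
  have hbox : ∀ x : (ℕ × ℕ) × (ℕ × ℕ), x.1.1 ≤ H → x.1.2 ≤ H → x.2.1 ∈ S → x.2.2 ∈ S →
      x ∈ (Finset.range (H + 1) ×ˢ Finset.range (H + 1)) ×ˢ (S ×ˢ S) := by
    intro x h1 h2 h3 h4
    rw [Finset.mem_product, Finset.mem_product, Finset.mem_product, Finset.mem_range,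
      Finset.mem_range]
    exact ⟨⟨by omega, by omega⟩, h3, h4⟩
  have hNe : (0 : ℝ) ≤ (N : ℝ) ^ ε := Real.rpow_nonneg hN0.le ε
  have hNp : (N : ℝ) ^ (2 + ε) = (N : ℝ) ^ 2 * (N : ℝ) ^ ε := by
    rw [Real.rpow_add hN0]
    congr 1
    exact_mod_cast Real.rpow_natCast (N : ℝ) 2
  have hl0 : 0 < l := by linarith
  have hR0 : 0 ≤ (N : ℝ) ^ 2 * D * l ^ 3 := by positivity
  rw [hNp]
  rcases lt_or_ge (C₁ * W) ((K : ℝ) ^ 3) with hlt | hge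
  · -- the second case
    have h1 := hcn N D K u H g t b S hPar (by rw [← hW]; exact hlt) hg hgH hHN
    have h2 := card_le_nat (T.image f)
      (fun x : (ℕ × ℕ) × (ℕ × ℕ) => H < 2 * x.1.1 ∧ x.1.1 ≤ H ∧ H < 2 * x.1.2 ∧
        x.1.2 ≤ H ∧ Nat.gcd x.1.1 u = g ∧ Nat.gcd x.1.2 u = g ∧
        x.2.1 ∈ S ∧ x.2.2 ∈ S ∧ x.2.1 ≠ x.2.2 ∧
        ∃ r r' : ℤ, |r| ≤ (N : ℤ) ∧ |r'| ≤ (N : ℤ) ∧
          Close2 K t ((x.1.1, x.2.1, r), (x.1.2, x.2.2, r'))) _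
      (fun x hx => hbox x hx.2.1 hx.2.2.2.1 hx.2.2.2.2.2.2.1 hx.2.2.2.2.2.2.2.1) id (by
        intro a ha
        obtain ⟨v, hv, rfl⟩ := Finset.mem_image.1 ha
        obtain ⟨c1, c2, c3, c4, c5, c6⟩ := hmem v hv
        rw [hf]
        exact ⟨c1.1, c1.2.1, c2.1, c2.2.1, c1.2.2, c2.2.2, c3.1, c3.2.1, c3.2.2, v.1.2.2, v.2.2.2,
          c4.1, c4.2, c6⟩) (fun a _ a' _ h => h)
    have h3 : ((T.image f).card : ℝ) ≤ Ch * (N : ℝ) ^ ε * l ^ 2 * (W * (D : ℝ)) := by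
      rw [← hW, ← hl] at h1
      refine le_trans ?_ h1
      exact_mod_cast h2
    have h4 := num2w (N := N) (D := D) (K := K) (W := W) (l := l) (C₁ := C₁)
      (by exact_mod_cast hN1) (by exact_mod_cast hD1) hK0 hW0 hl1 hC₁ hlt
      (by exact_mod_cast p1) (by exact_mod_cast p4)
    calc (T.card : ℝ) ≤ (T.image f).card * B := hmain
      _ ≤ (Ch * (N : ℝ) ^ ε * l ^ 2 * (W * (D : ℝ))) * B :=
          mul_le_mul_of_nonneg_right h3 hB0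
      _ = (Ch * Cz * (N : ℝ) ^ ε) * ((l ^ 2 * (W * (D : ℝ))) *
          ((1 + W / (K : ℝ) ^ 3) * (1 + l * D * N / W) * (N / D))) := by rw [hB]; ring
      _ ≤ (Ch * Cz * (N : ℝ) ^ ε) * ((1 + 1 / C₁) ^ 2 * ((N : ℝ) ^ 2 * D * l ^ 3)) := by
          apply mul_le_mul_of_nonneg_left h4 (by positivity)
      _ = (Ch * Cz * (1 + 1 / C₁) ^ 2) * ((N : ℝ) ^ 2 * (N : ℝ) ^ ε * D * l ^ 3) := by ring
      _ ≤ (Cq * Cz * ((1 + C₁) * (2 + 2 * C₁)) + Ch * Cz * (1 + 1 / C₁) ^ 2) *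
          ((N : ℝ) ^ 2 * (N : ℝ) ^ ε * D * l ^ 3) := by
          apply mul_le_mul_of_nonneg_right _ (by positivity)
          have : 0 ≤ Cq * Cz * ((1 + C₁) * (2 + 2 * C₁)) := by positivity
          linarith
      _ = _ := by ring
  · -- the first case
    have h1 := qcn N D K u H g t b S hPar hg hgH hHN
    have h2 := card_le_nat (T.image f)
      (fun x : (ℕ × ℕ) × (ℕ × ℕ) => H < 2 * x.1.1 ∧ x.1.1 ≤ H ∧ H < 2 * x.1.2 ∧
        x.1.2 ≤ H ∧ Nat.gcd x.1.1 u = g ∧ Nat.gcd x.1.2 u = g ∧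
        x.2.1 ∈ S ∧ x.2.2 ∈ S ∧ x.2.1 ≠ x.2.2 ∧
        (u : ℤ) ∣ 5 * ((x.1.1 : ℤ) * (x.2.1 : ℤ) ^ 4 - (x.1.2 : ℤ) * (x.2.2 : ℤ) ^ 4) ∧
        |t - (b : ℝ) / (u : ℝ)| * (5 * |(x.1.1 : ℝ) * (x.2.1 : ℝ) ^ 4 -
          (x.1.2 : ℝ) * (x.2.2 : ℝ) ^ 4|) ≤ 1 / (K : ℝ) ^ 4) _
      (fun x hx => hbox x hx.2.1 hx.2.2.2.1 hx.2.2.2.2.2.2.1 hx.2.2.2.2.2.2.2.1) id (by
        intro a ha
        obtain ⟨v, hv, rfl⟩ := Finset.mem_image.1 ha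
        obtain ⟨c1, c2, c3, c4, c5, c6⟩ := hmem v hv
        obtain ⟨⟨s1, s2⟩, -, -⟩ := sig N D K u t b S hPar v.1 c5.1 v.2 c5.2 c6
        rw [hf]
        refine ⟨c1.1, c1.2.1, c2.1, c2.2.1, c1.2.2, c2.2.2, c3.1, c3.2.1, c3.2.2, ?_, ?_⟩
        · have e1 : m4 v.1 - m4 v.2 = 5 * ((v.1.1 : ℤ) * (v.1.2.1 : ℤ) ^ 4 -
              (v.2.1 : ℤ) * (v.2.2.1 : ℤ) ^ 4) := by
            unfold m4
            ring
          rw [e1] at s1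
          exact s1
        · have e1 : (m4 v.1 : ℝ) - (m4 v.2 : ℝ) = 5 * ((v.1.1 : ℝ) * (v.1.2.1 : ℝ) ^ 4 -
              (v.2.1 : ℝ) * (v.2.2.1 : ℝ) ^ 4) := by
            unfold m4
            push_cast
            ring
          rw [e1, abs_mul, abs_mul, abs_of_pos (by norm_num : (0 : ℝ) < 5)] at s2
          exact s2) (fun a _ a' _ h => h)
    have h3 : ((T.image f).card : ℝ) ≤ Cq * (N : ℝ) ^ ε *
        (l * (D : ℝ) ^ 2 * (N : ℝ) ^ 2 / W + (N : ℝ) * (D : ℝ)) := by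
      rw [← hW, ← hl] at h1
      refine le_trans ?_ h1
      exact_mod_cast h2
    have h4 := num1 (N := N) (D := D) (K := K) (W := W) (l := l) (C₁ := C₁) hN0 hD0 hK0 hW0 hl1 hC₁
      hge (by rw [hW]; exact p11) (by exact_mod_cast p6)
    calc (T.card : ℝ) ≤ (T.image f).card * B := hmain
      _ ≤ (Cq * (N : ℝ) ^ ε *
        (l * (D : ℝ) ^ 2 * (N : ℝ) ^ 2 / W + (N : ℝ) * (D : ℝ))) * B :=
          mul_le_mul_of_nonneg_right h3 hB0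
      _ = (Cq * Cz * (N : ℝ) ^ ε) * ((l * (D : ℝ) ^ 2 * (N : ℝ) ^ 2 / W + (N : ℝ) * (D : ℝ)) *
          ((1 + W / (K : ℝ) ^ 3) * (1 + l * D * N / W) * (N / D))) := by rw [hB]; ring
      _ ≤ (Cq * Cz * (N : ℝ) ^ ε) * (((1 + C₁) * (2 + 2 * C₁)) * ((N : ℝ) ^ 2 * D * l ^ 3)) := by
          apply mul_le_mul_of_nonneg_left h4 (by positivity)
      _ = (Cq * Cz * ((1 + C₁) * (2 + 2 * C₁))) *
          ((N : ℝ) ^ 2 * (N : ℝ) ^ ε * D * l ^ 3) := by ring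
      _ ≤ (Cq * Cz * ((1 + C₁) * (2 + 2 * C₁)) + Ch * Cz * (1 + 1 / C₁) ^ 2) *
          ((N : ℝ) ^ 2 * (N : ℝ) ^ ε * D * l ^ 3) := by
          apply mul_le_mul_of_nonneg_right _ (by positivity)
          have : 0 ≤ Ch * Cz * (1 + 1 / C₁) ^ 2 := by positivity
          linarith
      _ = _ := by ring

end Pool.Agent.VM5.H46
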